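import Pool.Agent.H.MP_18f314_lc.A

set_option autoImplicit false

open Set Pool.Agent.H.MP_07c8c2_lc Pool.Agent.H.MP_18f314_lc

namespace Pool.Agent.Results.MP_18f314_lc.No

/-- open covers -/
def OC {X : Type} [TopologicalSpace X] (U : Set (Set X)) : Prop :=
  (∀ A ∈ U, IsOpen A) ∧ ∀ x, ∃ A ∈ U, x ∈ A

/-- II has a winning strategy in the Menger game -/
def Wins (X : Type) [TopologicalSpace X] : Prop :=
  ∃ σ : List (Set (Set X)) → Set (Set X), ∀ f : ℕ → Set (Set X),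
    (∀ n, (∀ k ≤ n, OC (f k)) → (σ (hist f n)).Finite ∧ σ (hist f n) ⊆ f n) ∧
      ((∀ n, OC (f n)) → ∀ x, ∃ n, ∃ A ∈ σ (hist f n), x ∈ A)

/-- p forces that the strategy with forcing relation R is winning for II in the Menger game -/
def FWins {P X : Type} [Preorder P] [TopologicalSpace X]
    (R : List (N2 X P) → List (N1 X P) → P → Prop) (p : P) : Prop :=
  Strat Cov R p ∧ ∀ f : ℕ → N2 X P, ∀ q ≤ p, (∀ n, Cov (f n) q) → ∀ x,
    Ex (fun (y : ℕ × List (N1 X P)) r => R (hist f y.1) y.2 r ∧ ∃ A ∈ y.2, Mem x A r) q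

theorem result : ∃ (P : Type) (_ : Preorder P) (_ : Nonempty P) (X : Type)
    (_ : TopologicalSpace X), Countable P ∧ SP P ∧ T2Space X ∧ Wins X ∧
      ∀ (p : P) (R : List (N2 X P) → List (N1 X P) → P → Prop), ¬ FWins R p := by
  refine ⟨Co, _, inferInstance, ℕ → Bool, _, inferInstance, sp, inferInstance, ?_,
    fun p R ⟨a, b⟩ => ?_⟩
  · have : ∀ U : Set (Set (ℕ → Bool)), ∃ F, OC U → F.Finite ∧ F ⊆ U ∧ ∀ x, ∃ A ∈ F, x ∈ A := by
      intro U
      by_cases h : OC U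
      · obtain ⟨F, a, b, c⟩ := isCompact_univ.elim_finite_subcover_image (c := id) h.1
          fun x _ => by simpa using h.2 x
        exact ⟨F, fun _ => ⟨b, a, fun x => by simpa using c (mem_univ x)⟩⟩
      · exact ⟨∅, fun k => (h k).elim⟩
    choose F hF using this
    refine ⟨fun l => F (l.headD ∅), fun f => ⟨fun n h => ?_, fun h x => ⟨0, (hF _ (h 0)).2.2 x⟩⟩⟩
    cases n <;> exact ⟨(hF _ (h _ le_rfl)).1, (hF _ (h _ le_rfl)).2.1⟩
  · obtain ⟨f, c, x, d⟩ := core uc (fun V p h => ⟨os h, fun x => Ex.reg fun q e => by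
      obtain ⟨r, f, t, g⟩ := h q e
      refine ⟨r, f, fun s i => ?_⟩
      obtain ⟨v, j, A, k, m⟩ := (uc t r).2 x s i
      exact ⟨v, j, A, (g A v (j.trans i)).2 k, m⟩⟩) a
    obtain ⟨r, e, y, g, A, i, j⟩ := b f p le_rfl c x p le_rfl
    exact d _ _ r e g A i j

end Pool.Agent.Results.MP_18f314_lc.No
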